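import Mathlib

set_option autoImplicit false

namespace Pool.Agent.Results.MP_397c7d_co.SemilatticeIdentities

/-! ### Closure spaces, regular closed sets and their lattice -/

section Reg

variable {P : Type*}

/-- The interior operator of a closure operator `φ` on the subsets of `P`:
`int a = P \ φ (P \ a)`. -/
def inter (φ : ClosureOperator (Set P)) (a : Set P) : Set P := (φ aᶜ)ᶜ

lemma inter_subset (φ : ClosureOperator (Set P)) (a : Set P) : inter φ a ⊆ a := by
  intro x hx
  by_contra h
  exact hx (φ.le_closure _ h)

lemma inter_mono (φ : ClosureOperator (Set P)) {a b : Set P} (h : a ⊆ b) :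
    inter φ a ⊆ inter φ b :=
  Set.compl_subset_compl.2 (φ.monotone (Set.compl_subset_compl.2 h))

lemma inter_inter (φ : ClosureOperator (Set P)) (a : Set P) :
    inter φ (inter φ a) = inter φ a := by
  unfold inter
  rw [compl_compl, φ.idempotent]

/-- The regular closed subsets of a closure space: the sets `a` with `a = φ (int a)`. -/
def RegClosed (φ : ClosureOperator (Set P)) : Type _ := {a : Set P // φ (inter φ a) = a}

variable {φ : ClosureOperator (Set P)}

/-- Regular closed sets are ordered by inclusion. -/
instance : PartialOrder (RegClosed φ) := Subtype.partialOrder _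

lemma reg_closed (a : RegClosed φ) : φ a.1 = a.1 := by
  conv_rhs => rw [← a.2]
  conv_lhs => rw [← a.2]
  exact φ.idempotent _

lemma reg_of_open {u : Set P} (h : inter φ u = u) : φ (inter φ (φ u)) = φ u := by
  apply le_antisymm
  · calc φ (inter φ (φ u)) ≤ φ (φ u) := φ.monotone (inter_subset φ _)
      _ = φ u := φ.idempotent _
  · apply φ.monotone
    calc u = inter φ u := h.symm
      _ ⊆ inter φ (φ u) := inter_mono φ (φ.le_closure _)

lemma reg_sup (a b : RegClosed φ) : φ (inter φ (φ (a.1 ∪ b.1))) = φ (a.1 ∪ b.1) := by
  apply le_antisymm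
  · calc φ (inter φ (φ (a.1 ∪ b.1))) ≤ φ (φ (a.1 ∪ b.1)) := φ.monotone (inter_subset φ _)
      _ = φ (a.1 ∪ b.1) := φ.idempotent _
  · have h1 : a.1 ⊆ φ (inter φ (φ (a.1 ∪ b.1))) := by
      conv_lhs => rw [← a.2]
      exact φ.monotone (inter_mono φ (Set.subset_union_left.trans (φ.le_closure _)))
    have h2 : b.1 ⊆ φ (inter φ (φ (a.1 ∪ b.1))) := by
      conv_lhs => rw [← b.2]
      exact φ.monotone (inter_mono φ (Set.subset_union_right.trans (φ.le_closure _)))
    calc φ (a.1 ∪ b.1) ≤ φ (φ (inter φ (φ (a.1 ∪ b.1)))) := φ.monotone (Set.union_subset h1 h2)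
      _ = φ (inter φ (φ (a.1 ∪ b.1))) := φ.idempotent _

/-- The lattice of regular closed sets, ordered by inclusion. -/
instance : Lattice (RegClosed φ) where
  sup a b := ⟨φ (a.1 ∪ b.1), reg_sup a b⟩
  le_sup_left a b := show a.1 ⊆ φ (a.1 ∪ b.1) from
    Set.subset_union_left.trans (φ.le_closure _)
  le_sup_right a b := show b.1 ⊆ φ (a.1 ∪ b.1) from
    Set.subset_union_right.trans (φ.le_closure _)
  sup_le a b c h1 h2 := show φ (a.1 ∪ b.1) ⊆ c.1 by
    rw [← reg_closed c]
    exact φ.monotone (Set.union_subset h1 h2)
  inf a b := ⟨φ (inter φ (a.1 ∩ b.1)), reg_of_open (inter_inter φ _)⟩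
  inf_le_left a b := show φ (inter φ (a.1 ∩ b.1)) ⊆ a.1 by
    conv_rhs => rw [← a.2]
    exact φ.monotone (inter_mono φ Set.inter_subset_left)
  inf_le_right a b := show φ (inter φ (a.1 ∩ b.1)) ⊆ b.1 by
    conv_rhs => rw [← b.2]
    exact φ.monotone (inter_mono φ Set.inter_subset_right)
  le_inf a b c h1 h2 := show a.1 ⊆ φ (inter φ (b.1 ∩ c.1)) by
    conv_lhs => rw [← a.2]
    exact φ.monotone (inter_mono φ (Set.subset_inter h1 h2))

end Reg

/-- `Reg S` for a join-semilattice `S`: the lattice of regular closed sets of the closure space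
`(S, x ↦ x^∨)`, where `x^∨ = supClosure x` is the set of joins of nonempty finite subsets of `x`. -/
abbrev RegSemilattice (S : Type*) [SemilatticeSup S] : Type _ :=
  RegClosed (supClosure : ClosureOperator (Set S))

/-! ### Lattice terms and identities -/

/-- Lattice terms in the variables `x₀, x₁, x₂, …`. -/
inductive LTerm : Type
  | var : ℕ → LTerm
  | sup : LTerm → LTerm → LTerm
  | inf : LTerm → LTerm → LTerm

/-- The value of a lattice term under an assignment of the variables. -/
def LTerm.eval {L : Type*} [Lattice L] (v : ℕ → L) : LTerm → L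
  | .var n => v n
  | .sup a b => a.eval v ⊔ b.eval v
  | .inf a b => a.eval v ⊓ b.eval v

/-- The identity `s = t` holds in the lattice `L`. -/
def Holds (s t : LTerm) (L : Type*) [Lattice L] : Prop :=
  ∀ v : ℕ → L, s.eval v = t.eval v

/-! ### Whitman derivations -/

/-- Derivability of the inequality `s ≤ t`. -/
inductive Der : LTerm → LTerm → Prop
  | var (n : ℕ) : Der (.var n) (.var n)
  | supL {a b t : LTerm} : Der a t → Der b t → Der (.sup a b) t
  | infR {s a b : LTerm} : Der s a → Der s b → Der s (.inf a b)
  | infL1 {a b t : LTerm} : Der a t → Der (.inf a b) t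
  | infL2 {a b t : LTerm} : Der b t → Der (.inf a b) t
  | supR1 {s a b : LTerm} : Der s a → Der s (.sup a b)
  | supR2 {s a b : LTerm} : Der s b → Der s (.sup a b)

lemma Der.sound {s t : LTerm} (h : Der s t) {L : Type*} [Lattice L] (v : ℕ → L) :
    s.eval v ≤ t.eval v := by
  induction h with
  | var n => exact le_rfl
  | supL _ _ h1 h2 => exact sup_le h1 h2
  | infR _ _ h1 h2 => exact le_inf h1 h2
  | infL1 _ h => exact inf_le_left.trans h
  | infL2 _ h => exact inf_le_right.trans h
  | supR1 _ h => exact h.trans le_sup_left
  | supR2 _ h => exact h.trans le_sup_right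

/-- Code of a term; proper subterms have smaller codes. -/
def code : LTerm → ℕ
  | .var n => 3 * n
  | .sup a b => 3 * Nat.pair (code a) (code b) + 1
  | .inf a b => 3 * Nat.pair (code a) (code b) + 2

lemma code_inj : Function.Injective code := by
  intro a
  induction a with
  | var n =>
    intro b h
    cases b with
    | var m => simp only [code] at h; congr 1; omega
    | sup _ _ => simp only [code] at h; omega
    | inf _ _ => simp only [code] at h; omega
  | sup a1 a2 ih1 ih2 =>
    intro b h
    cases b with
    | var m => simp only [code] at h; omega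
    | sup b1 b2 =>
      simp only [code] at h
      have h' : Nat.pair (code a1) (code a2) = Nat.pair (code b1) (code b2) := by omega
      rw [Nat.pair_eq_pair] at h'
      rw [ih1 h'.1, ih2 h'.2]
    | inf _ _ => simp only [code] at h; omega
  | inf a1 a2 ih1 ih2 =>
    intro b h
    cases b with
    | var m => simp only [code] at h; omega
    | inf b1 b2 =>
      simp only [code] at h
      have h' : Nat.pair (code a1) (code a2) = Nat.pair (code b1) (code b2) := by omega
      rw [Nat.pair_eq_pair] at h'
      rw [ih1 h'.1, ih2 h'.2]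
    | sup _ _ => simp only [code] at h; omega

/-- `Sub u t`: `u` is a subterm of `t`. -/
def Sub (u : LTerm) : LTerm → Prop
  | .var n => u = .var n
  | .sup a b => u = .sup a b ∨ Sub u a ∨ Sub u b
  | .inf a b => u = .inf a b ∨ Sub u a ∨ Sub u b

lemma Sub.refl (t : LTerm) : Sub t t := by
  cases t <;> simp [Sub]

lemma Sub.trans {u t r : LTerm} (h1 : Sub u t) (h2 : Sub t r) : Sub u r := by
  induction r with
  | var n =>
    simp only [Sub] at h2
    subst h2
    exact h1
  | sup a b iha ihb =>
    rcases h2 with rfl | h2 | h2
    · exact h1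
    · exact Or.inr (Or.inl (iha h2))
    · exact Or.inr (Or.inr (ihb h2))
  | inf a b iha ihb =>
    rcases h2 with rfl | h2 | h2
    · exact h1
    · exact Or.inr (Or.inl (iha h2))
    · exact Or.inr (Or.inr (ihb h2))

lemma Sub.code_le {u t : LTerm} (h : Sub u t) : code u ≤ code t := by
  induction t with
  | var n =>
    simp only [Sub] at h
    subst h
    exact le_rfl
  | sup a b iha ihb =>
    rcases h with rfl | h | h
    · exact le_rfl
    · have := iha h
      have h2 := Nat.left_le_pair (code a) (code b)
      simp only [code]; omega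
    · have := ihb h
      have h2 := Nat.right_le_pair (code a) (code b)
      simp only [code]; omega
  | inf a b iha ihb =>
    rcases h with rfl | h | h
    · exact le_rfl
    · have := iha h
      have h2 := Nat.left_le_pair (code a) (code b)
      simp only [code]; omega
    · have := ihb h
      have h2 := Nat.right_le_pair (code a) (code b)
      simp only [code]; omega

lemma finite_sub (t : LTerm) : {u | Sub u t}.Finite := by
  induction t with
  | var n => simp [Sub]
  | sup a b iha ihb =>
    have : {u | Sub u (.sup a b)} = {LTerm.sup a b} ∪ ({u | Sub u a} ∪ {u | Sub u b}) := by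
      ext u; simp [Sub]
    rw [this]
    exact (Set.finite_singleton _).union (iha.union ihb)
  | inf a b iha ihb =>
    have : {u | Sub u (.inf a b)} = {LTerm.inf a b} ∪ ({u | Sub u a} ∪ {u | Sub u b}) := by
      ext u; simp [Sub]
    rw [this]
    exact (Set.finite_singleton _).union (iha.union ihb)

/-- `Mtd u s`: `u` is one of the maximal non-meet meetands of `s`. -/
def Mtd (u : LTerm) : LTerm → Prop
  | .var n => u = .var n
  | .sup a b => u = .sup a b
  | .inf a b => Mtd u a ∨ Mtd u b

lemma Mtd.sub {u s : LTerm} (h : Mtd u s) : Sub u s := by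
  induction s with
  | var n => exact h
  | sup a b _ _ => exact Or.inl h
  | inf a b iha ihb =>
    rcases h with h | h
    · exact Or.inr (Or.inl (iha h))
    · exact Or.inr (Or.inr (ihb h))

lemma Mtd.der {u s t : LTerm} (h : Mtd u s) (hd : Der u t) : Der s t := by
  induction s with
  | var n => simp only [Mtd] at h; subst h; exact hd
  | sup a b _ _ => simp only [Mtd] at h; subst h; exact hd
  | inf a b iha ihb =>
    rcases h with h | h
    · exact .infL1 (iha h)
    · exact .infL2 (ihb h)

/-- A term is not a meet. -/
def NonInf : LTerm → Prop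
  | .inf _ _ => False
  | _ => True

lemma Mtd.nonInf {u s : LTerm} (h : Mtd u s) : NonInf u := by
  induction s with
  | var n => simp only [Mtd] at h; subst h; trivial
  | sup a b _ _ => simp only [Mtd] at h; subst h; trivial
  | inf a b iha ihb =>
    rcases h with h | h
    · exact iha h
    · exact ihb h

lemma exists_mtd {s a : LTerm} (h : ¬ Der s a) : ∃ u, Mtd u a ∧ ¬ Der s u := by
  induction a with
  | var n => exact ⟨_, rfl, h⟩
  | sup a b _ _ => exact ⟨_, rfl, h⟩
  | inf a b iha ihb =>
    by_cases ha : Der s a
    · have hb : ¬ Der s b := fun hb => h (.infR ha hb)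
      obtain ⟨u, hu, hu'⟩ := ihb hb
      exact ⟨u, Or.inr hu, hu'⟩
    · obtain ⟨u, hu, hu'⟩ := iha ha
      exact ⟨u, Or.inl hu, hu'⟩

/-! ### Evaluation on sets -/

section Ev

variable {S : Type*} [SemilatticeSup S]

/-- Closure in a join-semilattice. -/
abbrev cl (A : Set S) : Set S := supClosure A

/-- Interior in a join-semilattice. -/
abbrev op (A : Set S) : Set S := inter (supClosure : ClosureOperator (Set S)) A

/-- Evaluation of terms on sets. -/
def ev (X : ℕ → Set S) : LTerm → Set S
  | .var n => X n
  | .sup a b => cl (ev X a ∪ ev X b)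
  | .inf a b => cl (op (ev X a ∩ ev X b))

/-- Open sets. -/
def IsOp (U : Set S) : Prop := ∀ x y, x ⊔ y ∈ U → x ∈ U ∨ y ∈ U

lemma isOp_op (A : Set S) : IsOp (op A) := by
  intro x y h
  by_contra hcon
  push Not at hcon
  have hx : x ∈ cl Aᶜ := by
    by_contra h'
    exact hcon.1 h'
  have hy : y ∈ cl Aᶜ := by
    by_contra h'
    exact hcon.2 h'
  exact h (supClosed_supClosure hx hy)

lemma subset_op {U A : Set S} (hU : IsOp U) (h : U ⊆ A) : U ⊆ op A := by
  have h1 : cl Aᶜ ⊆ Uᶜ := by
    apply supClosure_min (Set.compl_subset_compl.2 h)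
    intro x hx y hy hxy
    rcases hU x y hxy with h' | h'
    · exact hx h'
    · exact hy h'
  exact Set.subset_compl_comm.1 h1

lemma op_subset (A : Set S) : op A ⊆ A := inter_subset _ _

lemma op_mono {A B : Set S} (h : A ⊆ B) : op A ⊆ op B := inter_mono _ h

lemma ev_closed {X : ℕ → Set S} (hX : ∀ n, SupClosed (X n)) (t : LTerm) : SupClosed (ev X t) := by
  cases t with
  | var n => exact hX n
  | sup a b => exact supClosed_supClosure
  | inf a b => exact supClosed_supClosure

lemma ev_inf_subset_left {X : ℕ → Set S} (hX : ∀ n, SupClosed (X n)) (a b : LTerm) :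
    ev X (.inf a b) ⊆ ev X a :=
  supClosure_min ((op_subset _).trans Set.inter_subset_left) (ev_closed hX a)

lemma ev_inf_subset_right {X : ℕ → Set S} (hX : ∀ n, SupClosed (X n)) (a b : LTerm) :
    ev X (.inf a b) ⊆ ev X b :=
  supClosure_min ((op_subset _).trans Set.inter_subset_right) (ev_closed hX b)

lemma ev_mtd {X : ℕ → Set S} (hX : ∀ n, SupClosed (X n)) {u a : LTerm} (h : Mtd u a) :
    ev X a ⊆ ev X u := by
  induction a with
  | var n => simp only [Mtd] at h; subst h; exact subset_rfl
  | sup a b _ _ => simp only [Mtd] at h; subst h; exact subset_rfl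
  | inf a b iha ihb =>
    rcases h with h | h
    · exact (ev_inf_subset_left hX a b).trans (iha h)
    · exact (ev_inf_subset_right hX a b).trans (ihb h)

/-- An open set contained in all meetands is contained in the term. -/
lemma subset_ev_of_mtd {X : ℕ → Set S} {U : Set S} (hU : IsOp U) {s : LTerm}
    (h : ∀ u, Mtd u s → U ⊆ ev X u) : U ⊆ ev X s := by
  induction s with
  | var n => exact h _ rfl
  | sup a b _ _ => exact h _ rfl
  | inf a b iha ihb =>
    have h1 := iha (fun u hu => h u (Or.inl hu))
    have h2 := ihb (fun u hu => h u (Or.inr hu))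
    exact (subset_op hU (Set.subset_inter h1 h2)).trans subset_supClosure

lemma bot_notMem_ev [OrderBot S] {X : ℕ → Set S} (hX : ∀ n, ⊥ ∉ X n) (t : LTerm) :
    ⊥ ∉ ev X t := by
  have key : ∀ A : Set S, ⊥ ∉ A → ⊥ ∉ cl A := by
    intro A hA h
    have h1 : cl A ⊆ {⊥}ᶜ := by
      apply supClosure_min
      · intro x hx hx'
        rw [Set.mem_singleton_iff] at hx'
        exact hA (hx' ▸ hx)
      · intro x hx y hy hxy
        rw [Set.mem_singleton_iff, sup_eq_bot_iff] at hxy
        exact hx hxy.1
    exact h1 h rfl
  induction t with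
  | var n => exact hX n
  | sup a b iha ihb =>
    apply key
    rintro (h | h)
    · exact iha h
    · exact ihb h
  | inf a b iha ihb =>
    apply key
    intro h
    exact iha (op_subset _ h).1

end Ev

/-! ### Products of pieces -/

set_option linter.unusedSectionVars false

section Pieces

variable {ι : Type} [Finite ι] {M : ι → Type} [∀ b, SemilatticeSup (M b)] [∀ b, OrderBot (M b)]

/-- Product set: nonzero tuples whose nonzero entries lie in the given sets. -/
def hat (A : ∀ b, Set (M b)) : Set (∀ b, M b) := {x | x ≠ ⊥ ∧ ∀ b, x b = ⊥ ∨ x b ∈ A b}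

open Classical in
/-- Tuples with one nonzero entry. -/
def emb (A : ∀ b, Set (M b)) : Set (∀ b, M b) :=
  {x | ∃ b, ∃ v ∈ A b, x = Function.update (⊥ : ∀ b, M b) b v}

lemma hat_closed {A : ∀ b, Set (M b)} (hA : ∀ b, SupClosed (A b)) : SupClosed (hat A) := by
  rintro x ⟨hx, hx'⟩ y ⟨hy, hy'⟩
  refine ⟨?_, ?_⟩
  · intro h
    rw [sup_eq_bot_iff] at h
    exact hx h.1
  · intro b
    rcases hx' b with h1 | h1
    · rcases hy' b with h2 | h2
      · left; simp [h1, h2]
      · right; simpa [h1] using h2
    · rcases hy' b with h2 | h2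
      · right; simpa [h2] using h1
      · right; exact hA b h1 h2

open Classical in
lemma isOp_emb {A : ∀ b, Set (M b)} (hA : ∀ b, IsOp (A b)) : IsOp (emb A) := by
  rintro x y ⟨b, v, hv, hxy⟩
  have hx : x = Function.update (⊥ : ∀ b, M b) b (x b) := by
    funext c
    by_cases hc : c = b
    · subst hc; simp
    · have h1 : (x ⊔ y) c = ⊥ := by rw [hxy]; simp [hc]
      rw [Pi.sup_apply, sup_eq_bot_iff] at h1
      simp [hc, h1.1]
  have hy : y = Function.update (⊥ : ∀ b, M b) b (y b) := by
    funext c
    by_cases hc : c = b
    · subst hc; simp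
    · have h1 : (x ⊔ y) c = ⊥ := by rw [hxy]; simp [hc]
      rw [Pi.sup_apply, sup_eq_bot_iff] at h1
      simp [hc, h1.2]
  have hb : x b ⊔ y b = v := by
    have h1 : (x ⊔ y) b = v := by rw [hxy]; simp
    simpa using h1
  rw [← hb] at hv
  rcases hA b _ _ hv with h | h
  · left; exact ⟨b, x b, h, hx⟩
  · right; exact ⟨b, y b, h, hy⟩

open Classical in
lemma emb_subset_hat {A : ∀ b, Set (M b)} (hA : ∀ b, ⊥ ∉ A b) : emb A ⊆ hat A := by
  rintro x ⟨b, v, hv, rfl⟩
  refine ⟨?_, ?_⟩
  · intro h
    have h1 : (Function.update (⊥ : ∀ b, M b) b v) b = ⊥ := by rw [h]; rfl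
    rw [Function.update_self] at h1
    exact hA b (h1 ▸ hv)
  · intro c
    by_cases hc : c = b
    · subst hc
      right
      simpa using hv
    · left
      simp [hc]

open Classical in
/-- Every element of the product set is generated by the embedded pieces. -/
lemma hat_subset_cl_emb {A : ∀ b, Set (M b)} :
    hat (fun b => cl (A b)) ⊆ cl (emb A) := by
  cases nonempty_fintype ι
  -- one-entry tuples
  have h1 : ∀ b, ∀ v ∈ cl (A b), Function.update (⊥ : ∀ b, M b) b v ∈ cl (emb A) := by
    intro b
    have h2 : cl (A b) ⊆ {v | Function.update (⊥ : ∀ b, M b) b v ∈ cl (emb A)} := by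
      apply supClosure_min
      · intro v hv
        exact subset_supClosure ⟨b, v, hv, rfl⟩
      · intro v hv w hw
        have h3 : Function.update (⊥ : ∀ b, M b) b (v ⊔ w)
            = Function.update (⊥ : ∀ b, M b) b v ⊔ Function.update (⊥ : ∀ b, M b) b w := by
          funext c
          by_cases hc : c = b
          · subst hc; simp
          · simp [hc]
        change _ ∈ cl (emb A)
        rw [h3]
        exact supClosed_supClosure hv hw
    exact fun v hv => h2 hv
  rintro x ⟨hx, hx'⟩
  -- the support
  set F : Finset ι := Finset.univ.filter (fun b => x b ≠ ⊥) with hF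
  have hFne : F.Nonempty := by
    by_contra hcon
    rw [Finset.not_nonempty_iff_eq_empty] at hcon
    apply hx
    funext b
    by_contra hb
    have : b ∈ F := by simp [hF]; exact hb
    rw [hcon] at this
    exact absurd this (Finset.notMem_empty _)
  have hxsum : x = F.sup' hFne (fun b => Function.update (⊥ : ∀ b, M b) b (x b)) := by
    apply le_antisymm
    · intro c
      by_cases hc : x c = ⊥
      · rw [hc]; exact bot_le
      · have hcF : c ∈ F := by simp [hF, hc]
        have h4 := Finset.le_sup' (fun b => Function.update (⊥ : ∀ b, M b) b (x b)) hcF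
        calc x c = (Function.update (⊥ : ∀ b, M b) c (x c)) c := by simp
          _ ≤ _ := h4 c
    · apply Finset.sup'_le
      intro b _ c
      by_cases hc : c = b
      · subst hc; simp
      · simp [hc]
  rw [hxsum]
  apply SupClosed.finsetSup'_mem supClosed_supClosure hFne
  intro b hb
  apply h1
  rcases hx' b with h | h
  · simp only [hF, Finset.mem_filter] at hb
    exact absurd h hb.2
  · exact h

open Classical in
lemma op_hat {E : ∀ b, Set (M b)} : op (hat E) ⊆ hat (fun b => op (E b)) := by
  intro x hx
  have hx0 := op_subset _ hx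
  refine ⟨hx0.1, ?_⟩
  intro b
  by_cases hb : x b = ⊥
  · left; exact hb
  right
  -- the projection of the interior
  set U : Set (M b) := {v | v ≠ ⊥ ∧ ∃ y ∈ op (hat E), y b = v} with hU
  have hUop : IsOp U := by
    rintro v w ⟨hvw, y, hy, hyb⟩
    by_cases hv : v = ⊥
    · right
      subst hv
      refine ⟨by simpa using hvw, y, hy, by simpa using hyb⟩
    by_cases hw : w = ⊥
    · left
      subst hw
      refine ⟨by simpa using hvw, y, hy, by simpa using hyb⟩
    have hsplit : y = Function.update y b v ⊔ Function.update (⊥ : ∀ b, M b) b w := by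
      funext c
      by_cases hc : c = b
      · subst hc; simp [hyb]
      · simp [hc]
    rw [hsplit] at hy
    rcases isOp_op _ _ _ hy with h | h
    · left; exact ⟨hv, _, h, by simp⟩
    · right; exact ⟨hw, _, h, by simp⟩
  have hUE : U ⊆ E b := by
    rintro v ⟨hv, y, hy, hyb⟩
    rcases (op_subset _ hy).2 b with h | h
    · exact absurd (hyb ▸ h) hv
    · exact hyb ▸ h
  exact subset_op hUop hUE ⟨hb, x, hx, rfl⟩

lemma cl_op_hat {E : ∀ b, Set (M b)} (hE : ∀ b, ⊥ ∉ E b) :
    cl (op (hat E)) = hat (fun b => cl (op (E b))) := by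
  apply le_antisymm
  · apply supClosure_min
    · intro x hx
      have h := op_hat hx
      refine ⟨h.1, fun b => ?_⟩
      rcases h.2 b with h' | h'
      · left; exact h'
      · right; exact subset_supClosure h'
    · exact hat_closed (fun b => supClosed_supClosure)
  · refine hat_subset_cl_emb.trans (supClosure_mono ?_)
    apply subset_op (isOp_emb (fun b => isOp_op _))
    have h1 : emb (fun b => op (E b)) ⊆ hat (fun b => op (E b)) :=
      emb_subset_hat (fun b h => hE b (op_subset _ h))
    intro x hx
    have h2 := h1 hx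
    refine ⟨h2.1, fun b => ?_⟩
    rcases h2.2 b with h' | h'
    · left; exact h'
    · right; exact op_subset _ h'

open Classical in
lemma cl_union_hat {A B : ∀ b, Set (M b)} :
    cl (hat A ∪ hat B) = hat (fun b => cl (A b ∪ B b)) := by
  apply le_antisymm
  · apply supClosure_min
    · rintro x (hx | hx)
      · refine ⟨hx.1, fun b => ?_⟩
        rcases hx.2 b with h' | h'
        · left; exact h'
        · right; exact subset_supClosure (Or.inl h')
      · refine ⟨hx.1, fun b => ?_⟩
        rcases hx.2 b with h' | h'
        · left; exact h'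
        · right; exact subset_supClosure (Or.inr h')
    · exact hat_closed (fun b => supClosed_supClosure)
  · intro x hx
    have h1 := hat_subset_cl_emb hx
    -- an embedded element of `A ∪ B` could be `⊥` only if the entry is `⊥`
    by_cases hbot : x = ⊥
    · exact absurd hbot hx.1
    have h2 : cl (emb (fun b => A b ∪ B b)) ⊆ {y | y = ⊥ ∨ y ∈ cl (hat A ∪ hat B)} := by
      apply supClosure_min
      · rintro y ⟨b, v, hv, rfl⟩
        by_cases hvb : v = ⊥
        · left
          subst hvb
          exact Function.update_eq_self_iff.2 rfl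
        · right
          apply subset_supClosure
          have hne : Function.update (⊥ : ∀ b, M b) b v ≠ ⊥ := by
            intro h
            have h3 : (Function.update (⊥ : ∀ b, M b) b v) b = ⊥ := by rw [h]; rfl
            rw [Function.update_self] at h3
            exact hvb h3
          rcases hv with hv | hv
          · left
            refine ⟨hne, fun c => ?_⟩
            by_cases hc : c = b
            · subst hc; right; simpa using hv
            · left; simp [hc]
          · right
            refine ⟨hne, fun c => ?_⟩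
            by_cases hc : c = b
            · subst hc; right; simpa using hv
            · left; simp [hc]
      · rintro y (hy | hy) z (hz | hz)
        · left; simp [hy, hz]
        · right; simpa [hy] using hz
        · right; simpa [hz] using hy
        · right; exact supClosed_supClosure hy hz
    rcases h2 h1 with h | h
    · exact absurd h hbot
    · exact h

lemma ev_hat {X : ∀ b, ℕ → Set (M b)} (hbot : ∀ b n, ⊥ ∉ X b n)
    (hcl : ∀ b n, SupClosed (X b n)) (t : LTerm) :
    ev (fun n => hat (fun b => X b n)) t = hat (fun b => ev (X b) t) := by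
  induction t with
  | var n => rfl
  | sup a b iha ihb =>
    simp only [ev]
    rw [iha, ihb, cl_union_hat]
  | inf a b iha ihb =>
    simp only [ev]
    rw [iha, ihb]
    have : hat (fun c => ev (X c) a) ∩ hat (fun c => ev (X c) b)
        = hat (fun c => ev (X c) a ∩ ev (X c) b) := by
      ext x
      constructor
      · rintro ⟨h1, h2⟩
        refine ⟨h1.1, fun c => ?_⟩
        rcases h1.2 c with h | h
        · left; exact h
        · rcases h2.2 c with h' | h'
          · left; exact h'
          · right; exact ⟨h, h'⟩
      · intro h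
        refine ⟨⟨h.1, fun c => ?_⟩, ⟨h.1, fun c => ?_⟩⟩
        · rcases h.2 c with h' | h'
          · left; exact h'
          · right; exact h'.1
        · rcases h.2 c with h' | h'
          · left; exact h'
          · right; exact h'.2
    rw [this, cl_op_hat (fun c h => bot_notMem_ev (hbot c) _ h.1)]

end Pieces

/-! ### Gluing a chain on top of a semilattice -/

section Glue

variable {M C : Type} [SemilatticeSup M] [OrderBot M] [LinearOrder C] [OrderBot C]

/-- The disjoint union of `M` and the chain `C`, where `z ⊔ c = f z ⊔ c`. -/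
def Glue (_f : SupBotHom M C) : Type := M ⊕ C

variable {f : SupBotHom M C}

/-- The join in the glued semilattice. -/
def gsup (f : SupBotHom M C) : Glue f → Glue f → Glue f
  | Sum.inl a, Sum.inl b => Sum.inl (a ⊔ b)
  | Sum.inl a, Sum.inr c => Sum.inr (f a ⊔ c)
  | Sum.inr c, Sum.inl a => Sum.inr (c ⊔ f a)
  | Sum.inr c, Sum.inr d => Sum.inr (c ⊔ d)

instance : Max (Glue f) := ⟨gsup f⟩

instance : SemilatticeSup (Glue f) := SemilatticeSup.mk'
  (by
    rintro (a | a) (b | b)
    · exact congrArg Sum.inl (sup_comm _ _)
    · exact congrArg Sum.inr (sup_comm _ _)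
    · exact congrArg Sum.inr (sup_comm _ _)
    · exact congrArg Sum.inr (sup_comm _ _))
  (by
    rintro (a | a) (b | b) (c | c)
    · exact congrArg Sum.inl (sup_assoc _ _ _)
    · change Sum.inr (f (a ⊔ b) ⊔ c) = Sum.inr (f a ⊔ (f b ⊔ c))
      rw [map_sup, sup_assoc]
    · change Sum.inr ((f a ⊔ b) ⊔ f c) = Sum.inr (f a ⊔ (b ⊔ f c))
      rw [sup_assoc]
    · exact congrArg Sum.inr (sup_assoc _ _ _)
    · change Sum.inr ((a ⊔ f b) ⊔ f c) = Sum.inr (a ⊔ f (b ⊔ c))
      rw [map_sup, sup_assoc]
    · exact congrArg Sum.inr (sup_assoc _ _ _)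
    · exact congrArg Sum.inr (sup_assoc _ _ _)
    · exact congrArg Sum.inr (sup_assoc _ _ _))
  (by
    rintro (a | a)
    · exact congrArg Sum.inl (sup_idem _)
    · exact congrArg Sum.inr (sup_idem _))

/-- Elements of `M` in the glued semilattice. -/
def low (f : SupBotHom M C) (a : M) : Glue f := Sum.inl a

/-- Elements of the chain in the glued semilattice. -/
def top (f : SupBotHom M C) (c : C) : Glue f := Sum.inr c

lemma low_sup (a b : M) : low f a ⊔ low f b = low f (a ⊔ b) := rfl
lemma low_sup_top (a : M) (c : C) : low f a ⊔ top f c = top f (f a ⊔ c) := rfl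
lemma top_sup_low (a : M) (c : C) : top f c ⊔ low f a = top f (c ⊔ f a) := rfl
lemma top_sup_top (c d : C) : top f c ⊔ top f d = top f (c ⊔ d) := rfl
lemma low_ne_top (a : M) (c : C) : low f a ≠ top f c := Sum.inl_ne_inr
lemma top_ne_low (a : M) (c : C) : top f c ≠ low f a := Sum.inr_ne_inl
lemma low_inj {a b : M} (h : low f a = low f b) : a = b := Sum.inl_injective h
lemma top_inj {a b : C} (h : top f a = top f b) : a = b := Sum.inr_injective h

lemma glue_cases (x : Glue f) : (∃ a, x = low f a) ∨ (∃ c, x = top f c) := by
  rcases x with a | c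
  · exact Or.inl ⟨a, rfl⟩
  · exact Or.inr ⟨c, rfl⟩

instance : OrderBot (Glue f) where
  bot := low f ⊥
  bot_le x := by
    have h : low f ⊥ ⊔ x = x := by
      rcases glue_cases x with ⟨a, rfl⟩ | ⟨c, rfl⟩
      · rw [low_sup, bot_sup_eq]
      · rw [low_sup_top, map_bot, bot_sup_eq]
    exact sup_eq_right.1 h

lemma glue_bot : (⊥ : Glue f) = low f ⊥ := rfl

instance [Finite M] [Finite C] : Finite (Glue f) := inferInstanceAs (Finite (M ⊕ C))

/-- The level of an element. -/
def level (f : SupBotHom M C) : Glue f → C
  | Sum.inl a => f a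
  | Sum.inr c => c

lemma level_low (a : M) : level f (low f a) = f a := rfl
lemma level_top (c : C) : level f (top f c) = c := rfl

lemma level_sup (x y : Glue f) : level f (x ⊔ y) = level f x ⊔ level f y := by
  rcases glue_cases x with ⟨a, rfl⟩ | ⟨c, rfl⟩ <;> rcases glue_cases y with ⟨b, rfl⟩ | ⟨d, rfl⟩
  · rw [low_sup, level_low, level_low, level_low, map_sup]
  · rfl
  · rfl
  · rfl

/-- The elements of the chain. -/
def chainSet (f : SupBotHom M C) : Set (Glue f) := Set.range (top f)

lemma isOp_chainSet : IsOp (chainSet f) := by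
  intro x y h
  rcases glue_cases x with ⟨a, rfl⟩ | ⟨c, rfl⟩
  · rcases glue_cases y with ⟨b, rfl⟩ | ⟨d, rfl⟩
    · obtain ⟨c, hc⟩ := h
      rw [low_sup] at hc
      exact absurd hc (top_ne_low _ _)
    · right; exact ⟨d, rfl⟩
  · left; exact ⟨c, rfl⟩

lemma isOp_topBot : IsOp ({top f ⊥} : Set (Glue f)) := by
  intro x y h
  rw [Set.mem_singleton_iff] at h
  rcases glue_cases x with ⟨a, rfl⟩ | ⟨c, rfl⟩ <;> rcases glue_cases y with ⟨b, rfl⟩ | ⟨d, rfl⟩
  · rw [low_sup] at h
    exact absurd h (low_ne_top _ _)
  · rw [low_sup_top] at h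
    have := top_inj h
    rw [sup_eq_bot_iff] at this
    right; rw [this.2]; rfl
  · rw [top_sup_low] at h
    have := top_inj h
    rw [sup_eq_bot_iff] at this
    left; rw [this.1]; rfl
  · rw [top_sup_top] at h
    have := top_inj h
    rw [sup_eq_bot_iff] at this
    left; rw [this.1]; rfl

lemma isOp_low {U : Set M} (hU : IsOp U) : IsOp (low f '' U) := by
  intro x y h
  obtain ⟨u, hu, hxy⟩ := h
  rcases glue_cases x with ⟨a, rfl⟩ | ⟨c, rfl⟩ <;> rcases glue_cases y with ⟨b, rfl⟩ | ⟨d, rfl⟩
  · rw [low_sup] at hxy
    have := low_inj hxy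
    subst this
    rcases hU a b hu with h | h
    · left; exact ⟨a, h, rfl⟩
    · right; exact ⟨b, h, rfl⟩
  · rw [low_sup_top] at hxy
    exact absurd hxy (low_ne_top _ _)
  · rw [top_sup_low] at hxy
    exact absurd hxy (low_ne_top _ _)
  · rw [top_sup_top] at hxy
    exact absurd hxy (low_ne_top _ _)

lemma IsOp.union {S : Type*} [SemilatticeSup S] {U V : Set S} (hU : IsOp U) (hV : IsOp V) :
    IsOp (U ∪ V) := by
  rintro x y (h | h)
  · rcases hU x y h with h | h
    · exact Or.inl (Or.inl h)
    · exact Or.inr (Or.inl h)
  · rcases hV x y h with h | h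
    · exact Or.inl (Or.inr h)
    · exact Or.inr (Or.inr h)

/-- Closure restricted to `M`. -/
lemma low_mem_cl (A : Set (Glue f)) (a : M) : low f a ∈ cl A ↔ a ∈ cl (low f ⁻¹' A) := by
  constructor
  · intro h
    have h1 : cl A ⊆ {x | ∀ b, x = low f b → b ∈ cl (low f ⁻¹' A)} := by
      apply supClosure_min
      · intro x hx b hb
        apply subset_supClosure
        rw [Set.mem_preimage, ← hb]
        exact hx
      · intro x hx y hy b hb
        rcases glue_cases x with ⟨a', rfl⟩ | ⟨c, rfl⟩
        · rcases glue_cases y with ⟨b', rfl⟩ | ⟨d, rfl⟩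
          · rw [low_sup] at hb
            rw [← low_inj hb]
            exact supClosed_supClosure (hx _ rfl) (hy _ rfl)
          · rw [low_sup_top] at hb
            exact absurd hb (top_ne_low _ _)
        · rcases glue_cases y with ⟨b', rfl⟩ | ⟨d, rfl⟩
          · rw [top_sup_low] at hb
            exact absurd hb (top_ne_low _ _)
          · rw [top_sup_top] at hb
            exact absurd hb (top_ne_low _ _)
    exact h1 h a rfl
  · intro h
    have h1 : cl (low f ⁻¹' A) ⊆ {b | low f b ∈ cl A} := by
      apply supClosure_min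
      · intro b hb
        exact subset_supClosure hb
      · intro b hb c hc
        change low f (b ⊔ c) ∈ cl A
        rw [← low_sup]
        exact supClosed_supClosure hb hc
    exact h1 h

lemma low_mem_op (A : Set (Glue f)) (a : M) : low f a ∈ op A ↔ a ∈ op (low f ⁻¹' A) := by
  have h := low_mem_cl Aᶜ a
  rw [Set.preimage_compl] at h
  exact not_congr h

lemma low_mem_ev (X : ℕ → Set (Glue f)) (t : LTerm) (a : M) :
    low f a ∈ ev X t ↔ a ∈ ev (fun n => low f ⁻¹' X n) t := by
  induction t generalizing a with
  | var n => rfl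
  | sup s t ihs iht =>
    simp only [ev]
    rw [low_mem_cl]
    have : low f ⁻¹' (ev X s ∪ ev X t)
        = ev (fun n => low f ⁻¹' X n) s ∪ ev (fun n => low f ⁻¹' X n) t := by
      ext b
      exact or_congr (ihs b) (iht b)
    rw [this]
  | inf s t ihs iht =>
    simp only [ev]
    rw [low_mem_cl]
    have h1 : low f ⁻¹' (op (ev X s ∩ ev X t))
        = op (ev (fun n => low f ⁻¹' X n) s ∩ ev (fun n => low f ⁻¹' X n) t) := by
      ext b
      have h2 : low f ⁻¹' (ev X s ∩ ev X t)
          = ev (fun n => low f ⁻¹' X n) s ∩ ev (fun n => low f ⁻¹' X n) t := by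
        ext c
        exact and_congr (ihs c) (iht c)
      rw [Set.mem_preimage, low_mem_op, h2]
    rw [h1]

end Glue

/-! ### The main construction -/

/-- `Fails s t`: some finite join-semilattice with regular closed sets violates `s ≤ t` at a
point `z` that is not below any element of the value of `t`. -/
def Fails (s t : LTerm) : Prop :=
  ∃ (S : Type) (_ : Finite S) (_ : SemilatticeSup S) (_ : OrderBot S) (X : ℕ → Set S),
    (∀ n, cl (op (X n)) = X n) ∧ (∀ n, ⊥ ∉ X n) ∧ ∃ z, z ∈ ev X s ∧ ∀ w ∈ ev X t, ¬ z ≤ w

/-- The levels: non-meet subterms `u` of `t` with `s ≤ u` not derivable. -/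
def Lev (s t : LTerm) : Type := {u : LTerm // Sub u t ∧ NonInf u ∧ ¬ Der s u}

noncomputable instance (s t : LTerm) : LinearOrder (Lev s t) :=
  LinearOrder.lift' (fun u : Lev s t => code u.1) (fun _ _ h => Subtype.ext (code_inj h))

instance (s t : LTerm) : Finite (Lev s t) :=
  ((finite_sub t).subset (fun _ h => h.1)).to_subtype

lemma lev_lt_iff {s t : LTerm} (u v : Lev s t) : u < v ↔ code u.1 < code v.1 := Iff.rfl
lemma lev_le_iff {s t : LTerm} (u v : Lev s t) : u ≤ v ↔ code u.1 ≤ code v.1 := Iff.rfl

/-- Data of a semilattice `M` with regular closed sets and a level map. -/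
theorem exists_base (s t : LTerm)
    (IH : ∀ σ, Mtd σ s → (∃ a b, σ = .sup a b) → ∀ u, ¬ Der σ u → Fails σ u) :
    ∃ (M : Type) (_ : Finite M) (_ : SemilatticeSup M) (_ : OrderBot M) (X : ℕ → Set M)
      (f : SupBotHom M (WithBot (Lev s t))),
      (∀ n, cl (op (X n)) = X n) ∧ (∀ n, ⊥ ∉ X n) ∧
      (∀ u : Lev s t, ∀ z ∈ ev X u.1, f z ≠ (u : WithBot (Lev s t))) ∧
      (∀ u : Lev s t, ∃ z, f z = (u : WithBot (Lev s t))) ∧
      (∀ σ, Mtd σ s → (∃ a b, σ = .sup a b) → ∀ u : Lev s t, ∃ z ∈ ev X σ,
        f z = (u : WithBot (Lev s t))) := by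
  classical
  -- index type of the pieces
  let J : Type := {σ : LTerm // Mtd σ s ∧ ∃ a b, σ = .sup a b}
  have hJ : Finite J :=
    ((finite_sub s).subset (fun _ h => h.1.sub)).to_subtype
  let ι : Type := Lev s t × Option J
  -- pieces
  have hpiece : ∀ b : ι, ∃ (S : Type) (_ : Finite S) (_ : SemilatticeSup S) (_ : OrderBot S)
      (X : ℕ → Set S) (z : S), (∀ n, cl (op (X n)) = X n) ∧ (∀ n, ⊥ ∉ X n) ∧
      (∀ j, b.2 = some j → z ∈ ev X j.1) ∧ z ≠ ⊥ ∧ ∀ w ∈ ev X b.1.1, ¬ z ≤ w := by
    rintro ⟨u, o⟩
    rcases o with _ | j
    · refine ⟨Bool, inferInstance, inferInstance, inferInstance, fun _ => ∅, true, ?_, ?_, ?_, ?_,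
        ?_⟩
      · intro n
        have : op (∅ : Set Bool) ⊆ ∅ := op_subset _
        rw [Set.subset_empty_iff.1 this]
        simp [cl]
      · intro n h; exact h
      · intro j hj; exact absurd hj (by simp)
      · decide
      · have hempty : ∀ t : LTerm, ev (fun _ => (∅ : Set Bool)) t = ∅ := by
          intro t
          induction t with
          | var n => rfl
          | sup a b iha ihb => simp only [ev]; rw [iha, ihb]; simp [cl]
          | inf a b iha ihb =>
            simp only [ev]; rw [iha, ihb]
            have : op ((∅ : Set Bool) ∩ ∅) ⊆ ∅ := (op_subset _).trans (by simp)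
            rw [Set.subset_empty_iff.1 this]
            simp [cl]
        intro w hw
        rw [hempty] at hw
        exact absurd hw (Set.notMem_empty _)
    · have hnd : ¬ Der j.1 u.1 := fun h => u.2.2.2 (j.2.1.der h)
      obtain ⟨S, h1, h2, h3, X, h4, h5, z, hz, hz'⟩ := IH j.1 j.2.1 j.2.2 u.1 hnd
      refine ⟨S, h1, h2, h3, X, z, h4, h5, ?_, ?_, hz'⟩
      · intro j' hj'
        have : j = j' := Option.some_injective _ hj'
        rw [← this]; exact hz
      · intro h
        exact bot_notMem_ev h5 _ (h ▸ hz)
  choose M hfin hsl hob X z hreg hbot hz hz0 hzw using hpiece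
  have := hfin
  let _ := hsl
  let _ := hob
  have hcl : ∀ b n, SupClosed (X b n) := fun b n => by
    rw [← hreg b n]; exact supClosed_supClosure
  -- level maps of the pieces
  let Id : ∀ b, Set (M b) := fun b => {x | x = ⊥ ∨ ∃ w ∈ ev (X b) b.1.1, x ≤ w}
  have hId_sup : ∀ b, ∀ x y : M b, x ⊔ y ∈ Id b ↔ x ∈ Id b ∧ y ∈ Id b := by
    intro b x y
    constructor
    · rintro (h | ⟨w, hw, h⟩)
      · rw [sup_eq_bot_iff] at h
        exact ⟨Or.inl h.1, Or.inl h.2⟩
      · exact ⟨Or.inr ⟨w, hw, le_sup_left.trans h⟩, Or.inr ⟨w, hw, le_sup_right.trans h⟩⟩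
    · rintro ⟨h1 | ⟨w, hw, h1⟩, h2 | ⟨w', hw', h2⟩⟩
      · left; rw [h1, h2, bot_sup_eq]
      · right; exact ⟨w', hw', by rw [h1, bot_sup_eq]; exact h2⟩
      · right; exact ⟨w, hw, by rw [h2, sup_bot_eq]; exact h1⟩
      · right; exact ⟨w ⊔ w', ev_closed (hcl b) _ hw hw', sup_le_sup h1 h2⟩
  let g : ∀ b, M b → WithBot (Lev s t) := fun b x => if x ∈ Id b then ⊥ else (b.1 : WithBot _)
  have hg_sup : ∀ b (x y : M b), g b (x ⊔ y) = g b x ⊔ g b y := by
    intro b x y
    by_cases hx : x ∈ Id b <;> by_cases hy : y ∈ Id b <;> simp [g, hId_sup, hx, hy]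
  have hg_bot : ∀ b, g b ⊥ = ⊥ := by
    intro b
    have : (⊥ : M b) ∈ Id b := Or.inl rfl
    simp [g, this]
  letI : Fintype ι := Fintype.ofFinite ι
  let f : SupBotHom (∀ b, M b) (WithBot (Lev s t)) :=
    { toFun := fun x => Finset.univ.sup (fun b => g b (x b))
      map_sup' := by
        intro x y
        simp only [Pi.sup_apply, hg_sup]
        exact Finset.sup_sup
      map_bot' := by
        simp [hg_bot] }
  have hf : ∀ x, f x = Finset.univ.sup (fun b => g b (x b)) := fun x => rfl
  have hf_single : ∀ b (v : M b), f (Function.update (⊥ : ∀ b, M b) b v) = g b v := by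
    intro b v
    rw [hf]
    apply le_antisymm
    · apply Finset.sup_le
      intro c _
      by_cases hc : c = b
      · subst hc; simp
      · simp [hc, hg_bot]
    · have := Finset.le_sup (f := fun c => g c ((Function.update (⊥ : ∀ b, M b) b v) c))
        (Finset.mem_univ b)
      simpa using this
  have hgz : ∀ b, g b (z b) = (b.1 : WithBot _) := by
    intro b
    have : z b ∉ Id b := by
      rintro (h | ⟨w, hw, h⟩)
      · exact hz0 b h
      · exact hzw b w hw h
    simp [g, this]
  refine ⟨∀ b, M b, inferInstance, inferInstance, inferInstance, fun n => hat (fun b => X b n), f,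
    ?_, ?_, ?_, ?_, ?_⟩
  · intro n
    rw [cl_op_hat (fun b => hbot b n)]
    congr 1
    funext b
    exact hreg b n
  · intro n h
    exact h.1 rfl
  · intro u x hx hfx
    rw [ev_hat hbot hcl] at hx
    -- some piece gives the level `u`
    have h1 : ∃ b, g b (x b) = (u : WithBot _) := by
      by_contra hcon
      push Not at hcon
      have hlt : Finset.univ.sup (fun b => g b (x b)) < (u : WithBot (Lev s t)) := by
        rw [Finset.sup_lt_iff (WithBot.bot_lt_coe u)]
        intro b _
        have hle : g b (x b) ≤ (u : WithBot _) := by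
          rw [← hfx, hf]
          exact Finset.le_sup (f := fun b => g b (x b)) (Finset.mem_univ b)
        exact lt_of_le_of_ne hle (hcon b)
      rw [← hf, hfx] at hlt
      exact lt_irrefl _ hlt
    obtain ⟨b, hb⟩ := h1
    by_cases hmem : x b ∈ Id b
    · simp [g, hmem] at hb
    · have hb' : (b.1 : WithBot (Lev s t)) = u := by simpa [g, hmem] using hb
      have hbu : b.1 = u := WithBot.coe_injective hb'
      rcases hx.2 b with h | h
      · exact hmem (Or.inl h)
      · apply hmem
        right
        rw [← hbu] at h
        exact ⟨x b, h, le_rfl⟩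
  · intro u
    refine ⟨Function.update ⊥ (u, none) (z (u, none)), ?_⟩
    rw [hf_single, hgz]
  · intro σ hσ hσ' u
    let b : ι := (u, some ⟨σ, hσ, hσ'⟩)
    refine ⟨Function.update ⊥ b (z b), ?_, ?_⟩
    · rw [ev_hat hbot hcl]
      apply emb_subset_hat (fun c => bot_notMem_ev (hbot c) σ)
      refine ⟨b, z b, hz b ⟨σ, hσ, hσ'⟩ rfl, ?_⟩
      funext c
      by_cases hc : c = b
      · subst hc; simp
      · simp [hc]
    · rw [hf_single, hgz]

/-- The chain construction. -/
theorem chain_step (s t : LTerm) (hs : ∀ a b, s ≠ .sup a b) (ht : NonInf t) (hst : ¬ Der s t)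
    (IH : ∀ σ, Mtd σ s → (∃ a b, σ = .sup a b) → ∀ u, ¬ Der σ u → Fails σ u) : Fails s t := by
  classical
  obtain ⟨M, hfin, hsl, hob, XM, f, hreg, hbot, hlev, hdummy, hgen⟩ := exists_base s t IH
  let X : ℕ → Set (Glue f) := fun n =>
    if Mtd (.var n) s then low f '' XM n ∪ chainSet f
    else low f '' XM n ∪ ({top f ⊥} ∪ (fun z => top f (f z)) '' XM n)
  have hXpre : ∀ n, low f ⁻¹' X n = XM n := by
    intro n
    by_cases hn : Mtd (.var n) s
    · simp only [X, hn, if_true]
      ext a
      constructor
      · rintro (⟨b, hb, hab⟩ | ⟨c, hc⟩)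
        · rw [← low_inj hab]; exact hb
        · exact absurd hc (top_ne_low _ _)
      · intro ha
        exact Or.inl ⟨a, ha, rfl⟩
    · simp only [X, hn, if_false]
      ext a
      constructor
      · rintro (⟨b, hb, hab⟩ | h | ⟨c, _, hc⟩)
        · rw [← low_inj hab]; exact hb
        · exact absurd h (low_ne_top _ _)
        · exact absurd hc (top_ne_low _ _)
      · intro ha
        exact Or.inl ⟨a, ha, rfl⟩
  have hXMcl : ∀ n, SupClosed (XM n) := fun n => by
    rw [← hreg n]; exact supClosed_supClosure
  have htopX : ∀ n, top f ⊥ ∈ X n := by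
    intro n
    by_cases hn : Mtd (.var n) s
    · simp only [X, hn, if_true]; exact Or.inr ⟨⊥, rfl⟩
    · simp only [X, hn, if_false]; exact Or.inr (Or.inl rfl)
  -- closedness
  have hXcl : ∀ n, SupClosed (X n) := by
    intro n
    by_cases hn : Mtd (.var n) s
    · simp only [X, hn, if_true]
      rintro x (⟨a, ha, rfl⟩ | ⟨c, rfl⟩) y (⟨b, hb, rfl⟩ | ⟨d, rfl⟩)
      · left; exact ⟨a ⊔ b, hXMcl n ha hb, rfl⟩
      · right; exact ⟨_, rfl⟩
      · right; exact ⟨_, rfl⟩
      · right; exact ⟨_, rfl⟩
    · simp only [X, hn, if_false]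
      rintro x (⟨a, ha, rfl⟩ | h | ⟨a, ha, rfl⟩) y (⟨b, hb, rfl⟩ | h' | ⟨b, hb, rfl⟩)
      · left; exact ⟨a ⊔ b, hXMcl n ha hb, rfl⟩
      · rw [Set.mem_singleton_iff] at h'
        subst h'
        right; right
        refine ⟨a, ha, ?_⟩
        rw [low_sup_top, sup_bot_eq]
      · right; right
        refine ⟨a ⊔ b, hXMcl n ha hb, ?_⟩
        change top f (f (a ⊔ b)) = low f a ⊔ top f (f b)
        rw [low_sup_top, map_sup]
      · rw [Set.mem_singleton_iff] at h
        subst h
        right; right
        refine ⟨b, hb, ?_⟩
        rw [top_sup_low, bot_sup_eq]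
      · rw [Set.mem_singleton_iff] at h h'
        subst h; subst h'
        right; left
        rw [top_sup_top, bot_sup_eq]; rfl
      · rw [Set.mem_singleton_iff] at h
        subst h
        right; right
        refine ⟨b, hb, ?_⟩
        change top f (f b) = top f ⊥ ⊔ top f (f b)
        rw [top_sup_top, bot_sup_eq]
      · right; right
        refine ⟨a ⊔ b, hXMcl n ha hb, ?_⟩
        change top f (f (a ⊔ b)) = top f (f a) ⊔ low f b
        rw [top_sup_low, map_sup]
      · rw [Set.mem_singleton_iff] at h'
        subst h'
        right; right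
        refine ⟨a, ha, ?_⟩
        change top f (f a) = top f (f a) ⊔ top f ⊥
        rw [top_sup_top, sup_bot_eq]
      · right; right
        refine ⟨a ⊔ b, hXMcl n ha hb, ?_⟩
        change top f (f (a ⊔ b)) = top f (f a) ⊔ top f (f b)
        rw [top_sup_top, map_sup]
  -- regularity
  have hlowcl : ∀ (A : Set (Glue f)) n, low f '' op (XM n) ⊆ A → low f '' XM n ⊆ cl A := by
    rintro A n hA x ⟨a, ha, rfl⟩
    rw [low_mem_cl]
    have h1 : op (XM n) ⊆ low f ⁻¹' A := fun b hb => hA ⟨b, hb, rfl⟩
    rw [← hreg n] at ha
    exact supClosure_mono h1 ha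
  have hXreg : ∀ n, cl (op (X n)) = X n := by
    intro n
    apply le_antisymm
    · exact supClosure_min (op_subset _) (hXcl n)
    · by_cases hn : Mtd (.var n) s
      · have hU : IsOp (low f '' op (XM n) ∪ chainSet f) := (isOp_low (isOp_op _)).union isOp_chainSet
        have hUX : low f '' op (XM n) ∪ chainSet f ⊆ X n := by
          simp only [X, hn, if_true]
          exact Set.union_subset_union_left _ (Set.image_mono (op_subset _))
        have hU2 := subset_op hU hUX
        have h1 := hlowcl (op (X n)) n (Set.subset_union_left.trans hU2)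
        have h2 : X n = low f '' XM n ∪ chainSet f := by simp only [X, hn, if_true]
        intro x hx
        rw [h2] at hx
        rcases hx with hx | hx
        · exact h1 hx
        · exact subset_supClosure (hU2 (Or.inr hx))
      · have hU : IsOp (low f '' op (XM n) ∪ {top f ⊥}) := (isOp_low (isOp_op _)).union isOp_topBot
        have hUX : low f '' op (XM n) ∪ {top f ⊥} ⊆ X n := by
          rintro x (⟨a, ha, rfl⟩ | hx)
          · have : a ∈ low f ⁻¹' X n := by rw [hXpre]; exact op_subset _ ha
            exact this
          · rw [Set.mem_singleton_iff] at hx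
            subst hx
            exact htopX n
        have hU2 := subset_op hU hUX
        have h1 := hlowcl (op (X n)) n (Set.subset_union_left.trans hU2)
        have h2 : X n = low f '' XM n ∪ ({top f ⊥} ∪ (fun z => top f (f z)) '' XM n) := by
          simp only [X, hn, if_false]
        have h3 : top f ⊥ ∈ cl (op (X n)) := subset_supClosure (hU2 (Or.inr rfl))
        intro x hx
        rw [h2] at hx
        rcases hx with hx | hx | ⟨a, ha, rfl⟩
        · exact h1 hx
        · rw [Set.mem_singleton_iff] at hx
          subst hx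
          exact h3
        · have h4 : low f a ∈ cl (op (X n)) := h1 ⟨a, ha, rfl⟩
          have h5 := supClosed_supClosure h4 h3
          rw [low_sup_top, sup_bot_eq] at h5
          exact h5
  -- values restricted to `M`
  have hevM : ∀ (a : LTerm) (x : M), low f x ∈ ev X a ↔ x ∈ ev XM a := by
    intro a x
    rw [low_mem_ev]
    have : (fun n => low f ⁻¹' X n) = XM := funext hXpre
    rw [this]
  -- the bottom of the chain is everywhere
  have htop : ∀ a : LTerm, top f ⊥ ∈ ev X a := by
    intro a
    induction a with
    | var n => exact htopX n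
    | sup a b iha _ => exact subset_supClosure (Or.inl iha)
    | inf a b iha ihb =>
      apply subset_supClosure
      apply subset_op isOp_topBot _ (Set.mem_singleton _)
      rw [Set.singleton_subset_iff]
      exact ⟨iha, ihb⟩
  -- the chain is contained in the value of `s`
  have hpos : chainSet f ⊆ ev X s := by
    apply subset_ev_of_mtd isOp_chainSet
    intro σ hσ
    cases hσc : σ with
    | var n =>
      subst hσc
      change chainSet f ⊆ X n
      simp only [X, hσ, if_true]
      exact Set.subset_union_right
    | sup a b =>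
      subst hσc
      rintro _ ⟨c, rfl⟩
      induction c using WithBot.recBotCoe with
      | bot => exact htop _
      | coe u =>
        obtain ⟨z, hz, hzu⟩ := hgen _ hσ ⟨a, b, rfl⟩ u
        have h1 : low f z ∈ ev X (.sup a b) := (hevM _ _).2 hz
        have h2 := ev_closed hXcl (.sup a b) h1 (htop _)
        rw [low_sup_top, sup_bot_eq, hzu] at h2
        exact h2
    | inf a b =>
      subst hσc
      exact absurd hσ.nonInf (fun h => h)
  -- the negative part
  have hneg : ∀ u : Lev s t, ∀ x ∈ ev X u.1, level f x ≠ (u : WithBot (Lev s t)) := by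
    intro u
    induction u using WellFoundedLT.induction with
    | ind u IHu =>
      have key : ∀ a : LTerm, Sub a u.1 → ¬ Der s a →
          (∀ z ∈ ev XM a, f z ≠ (u : WithBot (Lev s t))) →
          ∀ x ∈ ev X a, level f x ≠ (u : WithBot (Lev s t)) := by
        intro a
        induction a with
        | var n =>
          intro _ hnd hM x hx
          have hn : ¬ Mtd (.var n) s := fun h => hnd (h.der (.var n))
          have h2 : X n = low f '' XM n ∪ ({top f ⊥} ∪ (fun z => top f (f z)) '' XM n) := by
            simp only [X, hn, if_false]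
          change x ∈ X n at hx
          rw [h2] at hx
          rcases hx with ⟨z, hz, rfl⟩ | hx | ⟨z, hz, rfl⟩
          · exact hM z hz
          · rw [Set.mem_singleton_iff] at hx
            subst hx
            rw [level_top]
            exact WithBot.bot_ne_coe
          · rw [level_top]
            exact hM z hz
        | sup a b iha ihb =>
          intro hsub hnd hM x hx
          have ha := iha ((show Sub a (.sup a b) from Or.inr (Or.inl (Sub.refl a))).trans hsub) (fun h => hnd (.supR1 h))
            (fun z hz => hM z (subset_supClosure (Or.inl hz)))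
          have hb := ihb ((show Sub b (.sup a b) from Or.inr (Or.inr (Sub.refl b))).trans hsub) (fun h => hnd (.supR2 h))
            (fun z hz => hM z (subset_supClosure (Or.inr hz)))
          have h1 : cl (ev X a ∪ ev X b) ⊆ {x | level f x ≠ (u : WithBot (Lev s t))} := by
            apply supClosure_min
            · rintro y (hy | hy)
              · exact ha y hy
              · exact hb y hy
            · intro y hy z hz
              change level f (y ⊔ z) ≠ _
              rw [level_sup]
              rcases le_total (level f y) (level f z) with h | h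
              · rw [sup_eq_right.2 h]; exact hz
              · rw [sup_eq_left.2 h]; exact hy
          exact h1 hx
        | inf a b _ _ =>
          intro hsub hnd hM x hx
          -- closedness of the complement of a level
          have hcc : SupClosed {x | level f x ≠ (u : WithBot (Lev s t))} := by
            intro y hy z hz
            change level f (y ⊔ z) ≠ _
            rw [level_sup]
            rcases le_total (level f y) (level f z) with h | h
            · rw [sup_eq_right.2 h]; exact hz
            · rw [sup_eq_left.2 h]; exact hy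
          have h1 : cl (op (ev X a ∩ ev X b)) ⊆ {x | level f x ≠ (u : WithBot (Lev s t))} := by
            apply supClosure_min _ hcc
            intro y hy hyu
            have hyev : y ∈ ev X (.inf a b) := subset_supClosure hy
            rcases glue_cases y with ⟨z, rfl⟩ | ⟨c, rfl⟩
            · exact hM z ((hevM _ _).1 hyev) hyu
            · rw [level_top] at hyu
              subst hyu
              obtain ⟨τ, hτ, hτd⟩ := exists_mtd hnd
              have hτsub : Sub τ u.1 := hτ.sub.trans hsub
              let v : Lev s t := ⟨τ, hτsub.trans u.2.1, hτ.nonInf, hτd⟩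
              have hvu : v < u := by
                rw [lev_lt_iff]
                -- `τ` is a proper subterm of `inf a b`
                have h2 : code τ < code (.inf a b) := by
                  rcases hτ with h | h
                  · have := h.sub.code_le
                    have h3 := Nat.left_le_pair (code a) (code b)
                    simp only [code]; omega
                  · have := h.sub.code_le
                    have h3 := Nat.right_le_pair (code a) (code b)
                    simp only [code]; omega
                exact lt_of_lt_of_le h2 hsub.code_le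
              obtain ⟨z, hz⟩ := hdummy u
              have hsplit : low f z ⊔ top f (v : WithBot (Lev s t))
                  = top f (u : WithBot (Lev s t)) := by
                rw [low_sup_top, hz]
                congr 1
                exact sup_eq_left.2 (WithBot.coe_le_coe.2 hvu.le)
              rw [← hsplit] at hy
              rcases isOp_op _ _ _ hy with h | h
              · exact hM z ((hevM _ _).1 (subset_supClosure h)) hz
              · have h3 : top f (v : WithBot (Lev s t)) ∈ ev X τ :=
                  ev_mtd hXcl hτ (subset_supClosure h)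
                exact IHu v hvu _ h3 rfl
          exact h1 hx
      exact key u.1 (Sub.refl _) u.2.2.2 (hlev u)
  -- conclusion
  let u₀ : Lev s t := ⟨t, Sub.refl t, ht, hst⟩
  refine ⟨Glue f, inferInstance, inferInstance, inferInstance, X, hXreg, ?_,
    top f (u₀ : WithBot (Lev s t)), hpos ⟨_, rfl⟩, ?_⟩
  · intro n h
    have : (⊥ : M) ∈ low f ⁻¹' X n := h
    rw [hXpre] at this
    exact hbot n this
  · intro w hw hle
    have h1 : top f (u₀ : WithBot (Lev s t)) ⊔ w = w := sup_eq_right.2 hle
    have h2 : level f w = (u₀ : WithBot (Lev s t)) ⊔ level f w := by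
      conv_lhs => rw [← h1]
      rw [level_sup, level_top]
    have h3 : level f w ≤ (u₀ : WithBot (Lev s t)) := by
      induction level f w using WithBot.recBotCoe with
      | bot => exact bot_le
      | coe v =>
        rw [WithBot.coe_le_coe, lev_le_iff]
        exact v.2.1.code_le
    have h4 : level f w = (u₀ : WithBot (Lev s t)) := by
      rw [h2]
      exact sup_eq_left.2 h3
    exact hneg u₀ w hw h4

lemma fails_mono_left {a s t : LTerm}
    (h : ∀ {S : Type} [SemilatticeSup S] (X : ℕ → Set S), (∀ n, SupClosed (X n)) →
      ev X a ⊆ ev X s) (hf : Fails a t) : Fails s t := by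
  obtain ⟨S, h1, h2, h3, X, h4, h5, z, hz, hz'⟩ := hf
  refine ⟨S, h1, h2, h3, X, h4, h5, z, h X (fun n => ?_) hz, hz'⟩
  rw [← h4 n]; exact supClosed_supClosure

lemma fails_mono_right {s a t : LTerm}
    (h : ∀ {S : Type} [SemilatticeSup S] (X : ℕ → Set S), (∀ n, SupClosed (X n)) →
      ev X t ⊆ ev X a) (hf : Fails s a) : Fails s t := by
  obtain ⟨S, h1, h2, h3, X, h4, h5, z, hz, hz'⟩ := hf
  refine ⟨S, h1, h2, h3, X, h4, h5, z, hz, fun w hw => hz' w (h X (fun n => ?_) hw)⟩
  rw [← h4 n]; exact supClosed_supClosure

/-- Underivable inequalities fail in some finite semilattice. -/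
theorem fails_of_not_der : ∀ (N : ℕ) (s : LTerm), code s = N → ∀ t, ¬ Der s t → Fails s t := by
  intro N
  induction N using Nat.strong_induction_on with
  | _ N IHN =>
    intro s hsN t
    induction t with
    | inf a b iha ihb =>
      intro hst
      by_cases ha : Der s a
      · have hb : ¬ Der s b := fun hb => hst (.infR ha hb)
        exact fails_mono_right (fun X hX => ev_inf_subset_right hX a b) (ihb hb)
      · exact fails_mono_right (fun X hX => ev_inf_subset_left hX a b) (iha ha)
    | var n =>
      intro hst
      have hni : NonInf (.var n) := trivial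
      by_cases hs : ∃ a b, s = .sup a b
      · obtain ⟨a, b, rfl⟩ := hs
        by_cases ha : Der a (.var n)
        · have hb : ¬ Der b (.var n) := fun hb => hst (.supL ha hb)
          refine fails_mono_left (fun X hX => ?_) (IHN (code b) ?_ b rfl _ hb)
          · exact Set.subset_union_right.trans subset_supClosure
          · rw [← hsN]
            have := Nat.right_le_pair (code a) (code b)
            simp only [code]; omega
        · refine fails_mono_left (fun X hX => ?_) (IHN (code a) ?_ a rfl _ ha)
          · exact Set.subset_union_left.trans subset_supClosure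
          · rw [← hsN]
            have := Nat.left_le_pair (code a) (code b)
            simp only [code]; omega
      · push Not at hs
        apply chain_step s _ hs hni hst
        intro σ hσ hσ' u hu
        refine IHN (code σ) ?_ σ rfl u hu
        rw [← hsN]
        apply lt_of_le_of_ne hσ.sub.code_le
        intro h
        obtain ⟨a, b, rfl⟩ := hσ'
        exact hs a b (code_inj h).symm
    | sup c d _ _ =>
      intro hst
      have hni : NonInf (.sup c d) := trivial
      by_cases hs : ∃ a b, s = .sup a b
      · obtain ⟨a, b, rfl⟩ := hs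
        by_cases ha : Der a (.sup c d)
        · have hb : ¬ Der b (.sup c d) := fun hb => hst (.supL ha hb)
          refine fails_mono_left (fun X hX => ?_) (IHN (code b) ?_ b rfl _ hb)
          · exact Set.subset_union_right.trans subset_supClosure
          · rw [← hsN]
            have := Nat.right_le_pair (code a) (code b)
            simp only [code]; omega
        · refine fails_mono_left (fun X hX => ?_) (IHN (code a) ?_ a rfl _ ha)
          · exact Set.subset_union_left.trans subset_supClosure
          · rw [← hsN]
            have := Nat.left_le_pair (code a) (code b)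
            simp only [code]; omega
      · push Not at hs
        apply chain_step s _ hs hni hst
        intro σ hσ hσ' u hu
        refine IHN (code σ) ?_ σ rfl u hu
        rw [← hsN]
        apply lt_of_le_of_ne hσ.sub.code_le
        intro h
        obtain ⟨a, b, rfl⟩ := hσ'
        exact hs a b (code_inj h).symm

/-- Evaluation in the lattice of regular closed sets is evaluation on sets. -/
lemma coe_eval {S : Type*} [SemilatticeSup S] (v : ℕ → RegSemilattice S) (t : LTerm) :
    (t.eval v).1 = ev (fun n => (v n).1) t := by
  induction t with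
  | var n => rfl
  | sup a b iha ihb =>
    simp only [ev]
    rw [← iha, ← ihb]
    rfl
  | inf a b iha ihb =>
    simp only [ev]
    rw [← iha, ← ihb]
    rfl

lemma not_holds_of_fails {s t : LTerm} (h : Fails s t) :
    ∃ (S : Type) (_ : Finite S) (_ : SemilatticeSup S) (v : ℕ → RegSemilattice S),
      s.eval v ≠ t.eval v := by
  obtain ⟨S, h1, h2, h3, X, h4, _, z, hz, hz'⟩ := h
  let v : ℕ → RegSemilattice S := fun n => ⟨X n, h4 n⟩
  refine ⟨S, h1, h2, v, ?_⟩
  intro heq
  have h5 : (s.eval v).1 = (t.eval v).1 := congrArg Subtype.val heq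
  rw [coe_eval v s, coe_eval v t] at h5
  change ev X s = ev X t at h5
  rw [h5] at hz
  exact hz' z hz le_rfl

/-- The lattices `Reg S`, with `S` ranging over the finite join-semilattices, satisfy no
nontrivial lattice identity: every identity that fails in some lattice `L` fails in `Reg S` for
some finite join-semilattice `S`. -/
theorem result.{u} (s t : LTerm) (L : Type u) [Lattice L] (h : ¬ Holds s t L) :
    ∃ (S : Type) (_ : Finite S) (_ : SemilatticeSup S), ¬ Holds s t (RegSemilattice S) := by
  have hd : ¬ Der s t ∨ ¬ Der t s := by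
    by_contra hcon
    push Not at hcon
    exact h (fun v => le_antisymm (hcon.1.sound v) (hcon.2.sound v))
  rcases hd with hd | hd
  · obtain ⟨S, h1, h2, v, hv⟩ := not_holds_of_fails (fails_of_not_der _ s rfl t hd)
    exact ⟨S, h1, h2, fun hh => hv (hh v)⟩
  · obtain ⟨S, h1, h2, v, hv⟩ := not_holds_of_fails (fails_of_not_der _ t rfl s hd)
    exact ⟨S, h1, h2, fun hh => hv (hh v).symm⟩

end Pool.Agent.Results.MP_397c7d_co.SemilatticeIdentities
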