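import Mathlib
import Pool.Agent.H19.GR.Star

set_option autoImplicit false

/-! The lattices of regular closed families of connected sets of finite graphs (even of finite
trees) satisfy no nontrivial lattice identity. -/

namespace Pool.Agent.Results.MP_397c7d_co.GraphIdentities

open Pool.Agent.Results.MP_397c7d_co.SemilatticeIdentities (RegClosed LTerm Holds inter)

/-- `so(G)`: the sets of vertices inducing a (nonempty) connected subgraph of `G`. -/
def So {V : Type} (G : SimpleGraph V) : Type := {X : Set V // (G.induce X).Connected}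

/-- A family `a ⊆ so(G)` is closed if `X ∪ Y ∈ a` whenever `X, Y ∈ a` are disjoint and
`X ∪ Y ∈ so(G)`. -/
def IsClosedFamily {V : Type} (G : SimpleGraph V) (a : Set (So G)) : Prop :=
  ∀ X ∈ a, ∀ Y ∈ a, Disjoint X.1 Y.1 → ∀ Z : So G, Z.1 = X.1 ∪ Y.1 → Z ∈ a

lemma isClosedFamily_sInf {V : Type} (G : SimpleGraph V) (F : Set (Set (So G)))
    (hF : ∀ a ∈ F, IsClosedFamily G a) : IsClosedFamily G (sInf F) := by
  intro X hX Y hY hd Z hZ a ha
  exact hF a ha X (hX a ha) Y (hY a ha) hd Z hZ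

/-- The closure operator on subsets of `so(G)`: `cl(a)` is the least closed family containing
`a`. -/
def soClosure {V : Type} (G : SimpleGraph V) : ClosureOperator (Set (So G)) :=
  ClosureOperator.ofCompletePred (IsClosedFamily G) (isClosedFamily_sInf G)

/-- The lattice `R(G)` of regular closed families of `(so(G), cl)`. -/
abbrev RG {V : Type} (G : SimpleGraph V) : Type := RegClosed (soClosure G)

end Pool.Agent.Results.MP_397c7d_co.GraphIdentities

namespace Pool.Agent.H19.GR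

open Pool.Agent.Results.MP_397c7d_co.SemilatticeIdentities
  (RegClosed LTerm Holds inter Der code reg_closed)
open Pool.Agent.Results.MP_397c7d_co.GraphIdentities

section Bridge

variable {V : Type} {G : SimpleGraph V}

lemma conn_iff_induce (Y : Set V) : Conn G Y ↔ (G.induce Y).Connected := by
  constructor
  · intro h
    have hne : Nonempty Y := h.1.to_subtype
    refine ⟨fun a b => ?_⟩
    let S : Set V := {x | ∃ hx : x ∈ Y, (G.induce Y).Reachable a ⟨x, hx⟩}
    have hS : Y ⊆ S := by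
      refine (conn_iff.1 h).2 S (fun x hx => hx.1) ⟨a.1, a.2, SimpleGraph.Reachable.refl _⟩ ?_
      rintro x ⟨hx, hax⟩ y ⟨hy, hyS⟩ hxy
      apply hyS
      refine ⟨hy, hax.trans ?_⟩
      apply SimpleGraph.Adj.reachable
      exact hxy
    exact (hS b.2).2
  · intro h
    obtain ⟨y⟩ := h.nonempty
    refine ⟨⟨y.1, y.2⟩, fun S hS hne hne' => ?_⟩
    obtain ⟨a, ha⟩ := hne
    obtain ⟨b, hb, hbS⟩ := hne'
    obtain ⟨w⟩ := h.preconnected ⟨a, hS ha⟩ ⟨b, hb⟩
    obtain ⟨d, _, h1, h2⟩ := w.exists_boundary_dart {x | x.1 ∈ S} ha hbS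
    exact ⟨d.fst.1, h1, d.snd.1, ⟨d.snd.2, h2⟩, d.adj⟩

/-- The sets of a family. -/
def im (a : Set (So G)) : Set (Set V) := {Y | ∃ h : (G.induce Y).Connected, (⟨Y, h⟩ : So G) ∈ a}

lemma mem_im {a : Set (So G)} {X : So G} : X.1 ∈ im a ↔ X ∈ a :=
  ⟨fun ⟨_, h⟩ => h, fun h => ⟨X.2, h⟩⟩

lemma im_conn {a : Set (So G)} {Y : Set V} (h : Y ∈ im a) : Conn G Y :=
  (conn_iff_induce Y).2 h.1

lemma im_inj {a b : Set (So G)} (h : im a = im b) : a = b := by
  ext X
  rw [← mem_im, h, mem_im]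

lemma closed_union {b : Set (So G)} (hb : IsClosedFamily G b) {X Y : Set V} (hX : X ∈ im b)
    (hY : Y ∈ im b) (hd : Disjoint X Y) (h : Conn G (X ∪ Y)) : X ∪ Y ∈ im b := by
  obtain ⟨h1, h1'⟩ := hX
  obtain ⟨h2, h2'⟩ := hY
  have h3 := (conn_iff_induce _).1 h
  exact ⟨h3, hb _ h1' _ h2' hd ⟨_, h3⟩ rfl⟩

lemma merge [Finite V] {b : Set (So G)} (hb : IsClosedFamily G b) : ∀ n : ℕ, ∀ D : Set V,
    D.ncard ≤ n → DU (im b) D → ∀ W ∈ im b, Disjoint W D → Conn G (W ∪ D) → W ∪ D ∈ im b := by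
  intro n
  induction n with
  | zero =>
    intro D hD _ W hW _ _
    have : D = ∅ := by
      rw [Nat.le_zero, Set.ncard_eq_zero D.toFinite] at hD
      exact hD
    rw [this, Set.union_empty]
    exact hW
  | succ n ih =>
    intro D hD hDU W hW hdisj hconn
    rcases Set.eq_empty_or_nonempty D with h | hDne
    · rw [h, Set.union_empty]
      exact hW
    · have hWne : W.Nonempty := (im_conn hW).1
      have h1 : ((W ∪ D) \ W).Nonempty := by
        obtain ⟨x, hx⟩ := hDne
        exact ⟨x, Or.inr hx, fun h => Set.disjoint_left.1 hdisj h hx⟩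
      obtain ⟨x, hx, y, ⟨hy, hyW⟩, hxy⟩ := hconn.2 W Set.subset_union_left hWne h1
      have hyD : y ∈ D := hy.resolve_left hyW
      obtain ⟨Y, hY, hyY, hYD, hrest⟩ := hDU.extract hyD
      have hWY : Conn G (W ∪ Y) := (im_conn hW).union (im_conn hY) hx hyY hxy
      have hWYm := closed_union hb hW hY (hdisj.mono_right hYD) hWY
      have h2 : W ∪ Y ∪ D \ Y = W ∪ D := by
        rw [Set.union_assoc, Set.union_sdiff_cancel hYD]
      have h3 : Disjoint (W ∪ Y) (D \ Y) := by
        rw [Set.disjoint_union_left]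
        exact ⟨hdisj.mono_right Set.sdiff_subset, disjoint_sdiff_self_right⟩
      have h4 : (D \ Y).ncard ≤ n := by
        have h5 : (D \ Y).ncard < D.ncard := by
          apply Set.ncard_lt_ncard _ D.toFinite
          refine ⟨Set.sdiff_subset, fun h => ?_⟩
          exact (h hyD).2 hyY
        omega
      have h5 := ih (D \ Y) h4 hrest (W ∪ Y) hWYm h3 (by rw [h2]; exact hconn)
      rwa [h2] at h5

lemma du_mem [Finite V] {b : Set (So G)} (hb : IsClosedFamily G b) {Y : Set V}
    (hY : Conn G Y) (hD : DU (im b) Y) : Y ∈ im b := by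
  obtain ⟨y, hy⟩ := hY.1
  obtain ⟨W, hW, _, hWY, hrest⟩ := hD.extract hy
  have h2 : W ∪ Y \ W = Y := Set.union_sdiff_cancel hWY
  have h := merge hb _ (Y \ W) le_rfl hrest W hW disjoint_sdiff_self_right
    (by rw [h2]; exact hY)
  rwa [h2] at h

lemma im_closure [Finite V] (a : Set (So G)) : im (soClosure G a) = cl G (im a) := by
  apply Set.Subset.antisymm
  · -- the closure is below the family of disjoint unions
    let b : Set (So G) := {X | X.1 ∈ cl G (im a)}
    have hb : IsClosedFamily G b := by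
      intro X hX Y hY hd Z hZ
      change Z.1 ∈ cl G (im a)
      refine ⟨(conn_iff_induce _).2 Z.2, ?_⟩
      rw [hZ]
      exact hX.2.union hY.2 hd
    have hab : a ⊆ b := fun X hX => ⟨(conn_iff_induce _).2 X.2, .single (mem_im.2 hX)⟩
    have h : soClosure G a ⊆ b := ClosureOperator.closure_min hab hb
    rintro Y ⟨hY, hYa⟩
    exact h hYa
  · rintro Y ⟨hY, hD⟩
    have hcl : IsClosedFamily G (soClosure G a) := (soClosure G).isClosed_closure a
    refine du_mem hcl hY (hD.mono ?_)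
    rintro Z ⟨hZ, hZa⟩
    exact ⟨hZ, (soClosure G).le_closure a hZa⟩

lemma im_inter [Finite V] (a : Set (So G)) : im (inter (soClosure G) a) = op G (im a) := by
  have h1 : im aᶜ = {Z | Conn G Z ∧ Z ∉ im a} := by
    ext Z
    constructor
    · rintro ⟨hZ, hZa⟩
      exact ⟨(conn_iff_induce _).2 hZ, fun ⟨_, h⟩ => hZa h⟩
    · rintro ⟨hZ, hZa⟩
      exact ⟨(conn_iff_induce _).1 hZ, fun h => hZa ⟨_, h⟩⟩
  ext Y
  constructor
  · rintro ⟨hY, hYa⟩
    refine ⟨(conn_iff_induce _).2 hY, fun hD => hYa ?_⟩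
    have h2 : Y ∈ im (soClosure G aᶜ) := by
      rw [im_closure, h1]
      exact ⟨(conn_iff_induce _).2 hY, hD⟩
    exact h2.2
  · rintro ⟨hY, hD⟩
    refine ⟨(conn_iff_induce _).1 hY, fun hcon => hD ?_⟩
    have h2 : Y ∈ im (soClosure G aᶜ) := ⟨(conn_iff_induce _).1 hY, hcon⟩
    rw [im_closure, h1] at h2
    exact h2.2

lemma im_union (a b : Set (So G)) : im (a ∪ b) = im a ∪ im b := by
  ext Y
  constructor
  · rintro ⟨h, h' | h'⟩
    · exact Or.inl ⟨h, h'⟩
    · exact Or.inr ⟨h, h'⟩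
  · rintro (⟨h, h'⟩ | ⟨h, h'⟩)
    · exact ⟨h, Or.inl h'⟩
    · exact ⟨h, Or.inr h'⟩

lemma im_inter' (a b : Set (So G)) : im (a ∩ b) = im a ∩ im b := by
  ext Y
  constructor
  · rintro ⟨h, h1, h2⟩
    exact ⟨⟨h, h1⟩, ⟨h, h2⟩⟩
  · rintro ⟨⟨h, h1⟩, ⟨_, h2⟩⟩
    exact ⟨h, h1, h2⟩

lemma im_eval [Finite V] (v : ℕ → RG G) (t : LTerm) :
    im (t.eval v).1 = ev G (fun n => im (v n).1) t := by
  induction t with
  | var n => rfl
  | sup a b iha ihb =>
    change im (soClosure G ((a.eval v).1 ∪ (b.eval v).1)) = _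
    rw [im_closure, im_union, iha, ihb]
    rfl
  | inf a b iha ihb =>
    change im (soClosure G (inter (soClosure G) ((a.eval v).1 ∩ (b.eval v).1))) = _
    rw [im_closure, im_inter, im_inter', iha, ihb]
    rfl

/-- The element of `R(G)` given by a regular closed family of sets. -/
def toRG [Finite V] {X : Set (Set V)} (hX : cl G (op G X) = X) : RG G :=
  ⟨{Y : So G | Y.1 ∈ X}, by
    have him : im {Y : So G | Y.1 ∈ X} = X := by
      ext Y
      constructor
      · rintro ⟨_, h⟩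
        exact h
      · intro h
        have h' : Y ∈ cl G (op G X) := by rw [hX]; exact h
        exact ⟨(conn_iff_induce _).1 h'.1, h⟩
    apply im_inj
    rw [im_closure, im_inter, him, hX]⟩

lemma im_toRG [Finite V] {X : Set (Set V)} (hX : cl G (op G X) = X) :
    im (toRG hX).1 = X := by
  ext Y
  constructor
  · rintro ⟨_, h⟩
    exact h
  · intro h
    have h' : Y ∈ cl G (op G X) := by rw [hX]; exact h
    exact ⟨(conn_iff_induce _).1 h'.1, h⟩

lemma isTree_of {G : SimpleGraph V} (h1 : Conn G Set.univ) (h2 : Acyc G) : G.IsTree := by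
  have hc : G.Connected := by
    have hne : Nonempty V := ⟨h1.1.choose⟩
    refine ⟨fun a b => ?_⟩
    have hS : Set.univ ⊆ {x | G.Reachable a x} := by
      refine (conn_iff.1 h1).2 _ (Set.subset_univ _) ⟨a, SimpleGraph.Reachable.refl _⟩ ?_
      rintro x hx y ⟨_, hy⟩ hxy
      exact hy (SimpleGraph.Reachable.trans hx hxy.reachable)
    exact hS (Set.mem_univ b)
  refine ⟨hc, ?_⟩
  rw [SimpleGraph.isAcyclic_iff_forall_adj_isBridge]
  intro v w hvw
  rw [SimpleGraph.isBridge_iff]
  rintro ⟨p⟩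
  obtain ⟨S, hvS, hwS, hS⟩ := h2 v w hvw
  obtain ⟨d, _, h3, h4⟩ := p.exists_boundary_dart S hvS hwS
  have h5 := d.adj
  rw [SimpleGraph.deleteEdges_adj] at h5
  obtain ⟨h6, h7⟩ := hS _ h3 _ h4 h5.1
  apply h5.2
  rw [h6, h7]
  rfl

end Bridge

lemma not_holds_of_rfails {s t : LTerm} (h : RFails s t) :
    ∃ (V : Type) (_ : Fintype V) (G : SimpleGraph V), G.IsTree ∧
      ∃ v : ℕ → RG G, ¬ (s.eval v ≤ t.eval v) := by
  obtain ⟨R, h1, h2⟩ := h
  have := R.fin
  refine ⟨R.V, Fintype.ofFinite _, R.G, isTree_of R.conn R.acyc, fun n => toRG (R.reg n), ?_⟩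
  intro hle
  apply h2
  have h3 : Set.univ ∈ ev R.G R.X s := h1 _ R.conn trivial s rfl
  have hX : (fun n => im (toRG (R.reg n)).1) = R.X := funext (fun n => im_toRG (R.reg n))
  have h4 := im_eval (fun n => toRG (R.reg n)) s
  have h5 := im_eval (fun n => toRG (R.reg n)) t
  rw [hX] at h4 h5
  rw [← h4] at h3
  rw [← h5]
  obtain ⟨h6, h7⟩ := h3
  exact ⟨h6, hle h7⟩

end Pool.Agent.H19.GR

namespace Pool.Agent.Results.MP_397c7d_co.GraphIdentities

open Pool.Agent.Results.MP_397c7d_co.SemilatticeIdentities (LTerm Holds Der)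

/-- If a lattice identity `s = t` fails in some lattice, then it fails in `R(G)` for some finite
graph `G`, which can even be chosen to be a tree. -/
theorem result.{u} (s t : LTerm) (L : Type u) [Lattice L] (h : ¬ Holds s t L) :
    ∃ (V : Type) (_ : Fintype V) (G : SimpleGraph V), G.IsTree ∧ ¬ Holds s t (RG G) := by
  have hder : ¬ Der s t ∨ ¬ Der t s := by
    by_contra hcon
    push Not at hcon
    apply h
    intro v
    exact le_antisymm (hcon.1.sound v) (hcon.2.sound v)
  rcases hder with hd | hd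
  · obtain ⟨V, hV, G, hG, v, hv⟩ :=
      H19.GR.not_holds_of_rfails (H19.GR.rfails_of_not_der _ s rfl t hd)
    exact ⟨V, hV, G, hG, fun hh => hv (hh v).le⟩
  · obtain ⟨V, hV, G, hG, v, hv⟩ :=
      H19.GR.not_holds_of_rfails (H19.GR.rfails_of_not_der _ t rfl s hd)
    exact ⟨V, hV, G, hG, fun hh => hv (hh v).ge⟩

end Pool.Agent.Results.MP_397c7d_co.GraphIdentities
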